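import Pool.Agent.Helper90.LcmBlocks

/-!
# Windows of three consecutive terms with small least common multiple

For every infinite sequence `A` of positive integers `a 1 < a 2 < ...` the lower limit of
`F (A, x, 3) / (x ^ (1/3) log x)` is `0`. More precisely, for every `X ≥ 1` there is `x` between `X` and
`8 X ^ 2` with `F (A, x, 3) ≤ 134 x ^ (1/3)`.

Idea of the proof. If `a < b < c` then `a b c ≤ lcm (a, b, c) (b - a) (c - b) (c - a)`, so a window
`a, b, c` with least common multiple below `8 ^ k` satisfies `2 ^ (-k) ≤ 8 log (c / a)`. Hence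
the sum of `2 ^ (-k)` over all scales `8 ^ k`, `m ≤ k < 2 m`, at which the window is counted is at most
`16 log (c / a)`. The sum over all windows of terms up to `8 ^ (2 m)` telescopes and is at most
`32 log (8 ^ (2 m)) = 192 m log 2`. So at one of the `m` scales there are at most
`192 (log 2) 2 ^ k` windows.
-/

set_option autoImplicit false

namespace Pool.Agent.Results.MP_7fe555_nt.WindowsLiminf

/-- `F (A, x, k)`: the number of `i ≥ 0` for which the least common multiple of the `k` consecutive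
terms `a (i + 1), ..., a (i + k)` is less than `x`. The sequence is `a 1, a 2, ...` (the value `a 0` is
not used). -/
noncomputable def F (a : ℕ → ℕ) (x : ℝ) (k : ℕ) : ℕ∞ :=
  {i : ℕ | (((Finset.Icc (i + 1) (i + k)).lcm a : ℕ) : ℝ) < x}.encard

/-- For every strictly increasing sequence of positive integers `a 1 < a 2 < ...` we have
`liminf F (A, x, 3) / (x ^ (1/3) log x) = 0` for `x → ∞`, and for every `X ≥ 1` there is `x` with
`X ≤ x ≤ 8 X ^ 2` and `F (A, x, 3) ≤ 134 x ^ (1/3)`. -/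
theorem result (a : ℕ → ℕ) (hmono : StrictMonoOn a (Set.Ici 1)) (hpos : ∀ n, 1 ≤ n → 0 < a n) :
    Filter.liminf (fun x : ℝ =>
      (F a x 3 : ENNReal) / ENNReal.ofReal (x ^ ((1 : ℝ) / 3) * Real.log x)) Filter.atTop = 0 ∧
    ∀ X : ℝ, 1 ≤ X → ∃ x : ℝ, X ≤ x ∧ x ≤ 8 * X ^ 2 ∧
      (F a x 3 : ENNReal) ≤ ENNReal.ofReal (134 * x ^ ((1 : ℝ) / 3)) := by
  have hb : StrictMono fun n => a (n + 1) := fun i j hij =>
    hmono (Set.mem_Ici.mpr (by omega)) (Set.mem_Ici.mpr (by omega)) (by omega)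
  have hbp : ∀ n, 0 < a (n + 1) := fun n => hpos _ (by omega)
  have hlcm : ∀ i, (Finset.Icc (i + 1) (i + 3)).lcm a =
      Helper90.LcmBlocks.L (fun n => a (n + 1)) i := by
    intro i
    have h1 : Finset.Icc (i + 1) (i + 3) = {i + 1, i + 2, i + 3} := by
      ext j
      simp only [Finset.mem_Icc, Finset.mem_insert, Finset.mem_singleton]
      omega
    rw [h1, Finset.lcm_insert, Finset.lcm_insert, Finset.lcm_singleton]
    unfold Helper90.LcmBlocks.L
    simp only [normalize_eq]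
    exact (Nat.lcm_assoc _ _ _).symm
  have hmain : ∀ X : ℝ, 1 ≤ X → ∃ x : ℝ, X ≤ x ∧ x ≤ 8 * X ^ 2 ∧
      (F a x 3 : ENNReal) ≤ ENNReal.ofReal (134 * x ^ ((1 : ℝ) / 3)) := by
    intro X hX
    -- the smallest `m ≥ 1` with `X ≤ 8 ^ m`
    obtain ⟨m, hm1, hm2, hm3⟩ : ∃ m : ℕ, 1 ≤ m ∧ X ≤ 8 ^ m ∧ (8 : ℝ) ^ (m - 1) ≤ X := by
      have hex : ∃ m : ℕ, 1 ≤ m ∧ X ≤ (8 : ℝ) ^ m := by
        obtain ⟨n, hn⟩ := pow_unbounded_of_one_lt X (by norm_num : (1 : ℝ) < 8)
        exact ⟨n + 1, by omega, hn.le.trans (pow_le_pow_right₀ (by norm_num) (by omega))⟩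
      classical
      obtain ⟨h1, h2⟩ := Nat.find_spec hex
      refine ⟨Nat.find hex, h1, h2, ?_⟩
      rcases Nat.lt_or_ge 1 (Nat.find hex) with h | h
      · have h3 := Nat.find_min hex (show Nat.find hex - 1 < Nat.find hex by omega)
        push Not at h3
        exact (h3 (by omega)).le
      · have : Nat.find hex - 1 = 0 := by omega
        rw [this, pow_zero]
        exact hX
    obtain ⟨k, hk1, hk2, hk3⟩ := Helper90.LcmBlocks.exists_scale _ hb hbp m hm1
    refine ⟨8 ^ k, hm2.trans (pow_le_pow_right₀ (by norm_num) hk1), ?_, ?_⟩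
    · have h1 : (8 : ℝ) ^ k ≤ 8 ^ (2 * m - 1) := pow_le_pow_right₀ (by norm_num) (by omega)
      have h2 : (8 : ℝ) ^ (2 * m - 1) = 8 * (8 ^ (m - 1)) ^ 2 := by
        rw [← pow_mul, ← pow_succ']
        congr 1
        omega
      have h3 : ((8 : ℝ) ^ (m - 1)) ^ 2 ≤ X ^ 2 := pow_le_pow_left₀ (by positivity) hm3 2
      linarith
    · have hset : {i : ℕ | (((Finset.Icc (i + 1) (i + 3)).lcm a : ℕ) : ℝ) < (8 : ℝ) ^ k} =
          {i : ℕ | Helper90.LcmBlocks.L (fun n => a (n + 1)) i < 8 ^ k} := by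
        ext i
        simp only [Set.mem_ofPred_eq]
        rw [hlcm]
        exact_mod_cast Iff.rfl
      have hfin := Helper90.LcmBlocks.finite_windows _ hb hbp (8 ^ k)
      have hcube : ((8 : ℝ) ^ k) ^ ((1 : ℝ) / 3) = 2 ^ k := by
        have h8 : (8 : ℝ) ^ k = ((2 : ℝ) ^ k) ^ (3 : ℕ) := by
          rw [← pow_mul, mul_comm k 3, pow_mul]
          norm_num
        rw [h8, ← Real.rpow_natCast, ← Real.rpow_mul (by positivity)]
        norm_num
      unfold F
      rw [hset, ← hfin.cast_ncard_eq, hcube]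
      rw [ENat.toENNReal_coe, ← ENNReal.ofReal_natCast]
      exact ENNReal.ofReal_le_ofReal hk3
  refine ⟨?_, hmain⟩
  refine le_antisymm (le_of_forall_gt_imp_ge_of_dense fun ε hε => ?_) bot_le
  refine Filter.liminf_le_of_frequently_le' (Filter.frequently_atTop.mpr fun X₀ => ?_)
  rcases eq_or_ne ε ⊤ with rfl | htop
  · exact ⟨X₀, le_rfl, le_top⟩
  · have he : 0 < ε.toReal := ENNReal.toReal_pos hε.ne' htop
    obtain ⟨x, hx1, -, hx3⟩ := hmain (max 1 (max X₀ (Real.exp (134 / ε.toReal)))) (le_max_left _ _)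
    have hxX : X₀ ≤ x := (le_max_left _ _).trans ((le_max_right _ _).trans hx1)
    have hxe : Real.exp (134 / ε.toReal) ≤ x :=
      (le_max_right _ _).trans ((le_max_right _ _).trans hx1)
    have hx0 : 0 < x := (Real.exp_pos _).trans_le hxe
    have hlog : 134 / ε.toReal ≤ Real.log x := (Real.le_log_iff_exp_le hx0).mpr hxe
    refine ⟨x, hxX, ENNReal.div_le_of_le_mul (hx3.trans ?_)⟩
    rw [← ENNReal.ofReal_toReal htop, ← ENNReal.ofReal_mul he.le]
    refine ENNReal.ofReal_le_ofReal ?_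
    have h1 : 134 ≤ ε.toReal * Real.log x := by
      rw [div_le_iff₀ he] at hlog
      linarith
    have h2 : 0 ≤ x ^ ((1 : ℝ) / 3) := by positivity
    calc 134 * x ^ ((1 : ℝ) / 3) ≤ (ε.toReal * Real.log x) * x ^ ((1 : ℝ) / 3) :=
          mul_le_mul_of_nonneg_right h1 h2
      _ = ε.toReal * (x ^ ((1 : ℝ) / 3) * Real.log x) := by ring

end Pool.Agent.Results.MP_7fe555_nt.WindowsLiminf
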